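import Pool.Agent.H.MP_91129c_co.Core
import Pool.Agent.H.MP_91129c_co.Lower

/-!
Conflict-free colouring of discs each of which meets at most `k` others: the worst case number
of colours is of order `log k`.
-/

namespace Pool.Agent.Results.MP_91129c_co.ThetaLog

open Metric

/-- A disc: a closed Euclidean disc of positive radius in the plane. -/
def IsDisc (d : Set (EuclideanSpace ℝ (Fin 2))) : Prop :=
  ∃ (c : EuclideanSpace ℝ (Fin 2)) (r : ℝ), 0 < r ∧ d = Metric.closedBall c r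

/-- `D` is a finite family of discs, each of which intersects at most `k` other discs of `D`. -/
def IsFamily (k : ℕ) (D : Set (Set (EuclideanSpace ℝ (Fin 2)))) : Prop :=
  D.Finite ∧ (∀ d ∈ D, IsDisc d) ∧ ∀ d ∈ D, {d' ∈ D | d' ≠ d ∧ (d ∩ d').Nonempty}.ncard ≤ k

/-- `χ` is a conflict-free colouring of `D`: every point covered by `D` lies in a disc of `D`
whose colour differs from the colours of all other discs of `D` containing the point. -/
def IsCF (D : Set (Set (EuclideanSpace ℝ (Fin 2)))) (m : ℕ) (χ : D → Fin m) : Prop :=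
  ∀ p ∈ ⋃₀ D, ∃ d : D, p ∈ d.1 ∧ ∀ d' : D, d' ≠ d → p ∈ d'.1 → χ d ≠ χ d'

/-- `m` colours suffice for all finite families of discs in which every disc meets at most `k`
others. -/
def Suffices (k m : ℕ) : Prop :=
  ∀ D : Set (Set (EuclideanSpace ℝ (Fin 2))), IsFamily k D → ∃ χ : D → Fin m, IsCF D m χ

/-- the least number of colours -/
noncomputable def f (k : ℕ) : ℕ := sInf {m : ℕ | Suffices k m}

open Pool.Agent.H.MP_91129c_co in
theorem suffices_of_pow (k m : ℕ) (hm : 6 ^ m * (k + 1) ^ 28 < 7 ^ m) : Suffices k (4 * m) := by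
  classical
  intro D hD
  obtain ⟨hfin, hdisc, hdeg⟩ := hD
  have : Finite D := hfin.to_subtype
  obtain ⟨n, ⟨e⟩⟩ := Finite.exists_equiv_fin D
  choose c r hr hcr using fun d : D => hdisc d.1 d.2
  have hcr' : ∀ i, (e.symm i).1 = closedBall (c (e.symm i)) (r (e.symm i)) := fun i =>
    hcr (e.symm i)
  obtain ⟨χ, hχ1, hχ2⟩ := core n k m (fun i => c (e.symm i)) (fun i => r (e.symm i))
    (fun i => hr _) (by
      intro i
      refine le_trans ?_ (hdeg (e.symm i).1 (e.symm i).2)
      refine Set.ncard_le_ncard_of_injOn (fun j => (e.symm j).1) ?_ ?_ ?_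
      · rintro j ⟨hj1, hj2⟩
        refine ⟨(e.symm j).2, ?_, ?_⟩
        · intro h
          exact hj1 (e.symm.injective (Subtype.ext h))
        · rw [hcr' i, hcr' j]; exact hj2
      · intro a _ b _ hab
        exact e.symm.injective (Subtype.ext hab)
      · exact hfin.subset (fun d hd => hd.1)) hm
  refine ⟨fun d => ⟨χ (e d), hχ1 (e d)⟩, ?_⟩
  rintro p ⟨d, hd, hpd⟩
  have hpe : ∀ d : D, p ∈ d.1 ↔ p ∈ closedBall (c (e.symm (e d))) (r (e.symm (e d))) := by
    intro d
    rw [Equiv.symm_apply_apply, ← hcr d]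
  obtain ⟨i, hi1, hi2⟩ := hχ2 p ⟨e ⟨d, hd⟩, (hpe ⟨d, hd⟩).mp hpd⟩
  refine ⟨e.symm i, ?_, ?_⟩
  · rw [hcr' i]; exact hi1
  · intro d' hd' hpd' heq
    have h1 : e d' ≠ i := fun h => hd' (by rw [← h, Equiv.symm_apply_apply])
    apply hi2 (e d') h1 ((hpe d').mp hpd')
    have := congrArg Fin.val heq
    simp only [Equiv.apply_symm_apply] at this
    exact this.symm

open Pool.Agent.H.MP_91129c_co in
theorem pow_of_suffices (k m : ℕ) (h : Suffices k m) : k + 1 < 2 ^ m := by
  classical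
  let D : Set (Set (EuclideanSpace ℝ (Fin 2))) := (fun i => ldisc k i) '' (Set.Iio (k + 1))
  have hfin : D.Finite := (Set.finite_Iio (k + 1)).image _
  have hncard : D.ncard = k + 1 := by
    rw [Set.ncard_image_of_injective _ (fun i j hij => ldisc_inj k i j hij)]
    rw [← Finset.coe_Iio, Set.ncard_coe_finset, Nat.card_Iio]
  have hfam : IsFamily k D := by
    refine ⟨hfin, ?_, ?_⟩
    · rintro d ⟨i, -, rfl⟩
      exact ⟨_, _, by positivity, rfl⟩
    · intro d hd
      have h1 : {d' ∈ D | d' ≠ d ∧ (d ∩ d').Nonempty} ⊆ D \ {d} := by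
        rintro d' ⟨h1, h2, _⟩
        exact ⟨h1, h2⟩
      have h2 := Set.ncard_le_ncard h1 (hfin.subset Set.sdiff_subset)
      rw [Set.ncard_sdiff_singleton_of_mem hd, hncard] at h2
      omega
  obtain ⟨χ, hχ⟩ := h D hfam
  have hmemD : ∀ i, i < k + 1 → ldisc k i ∈ D := fun i hi => ⟨i, hi, rfl⟩
  let χ' : ℕ → ℕ := fun i => if hi : i < k + 1 then (χ ⟨ldisc k i, hmemD i hi⟩ : ℕ) else 0
  have hχ' : ∀ i (hi : i < k + 1), χ' i = (χ ⟨ldisc k i, hmemD i hi⟩ : ℕ) := fun i hi => by
    simp only [χ', hi, dif_pos]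
  have key := interval_cf χ' (Finset.range m) 0 (k + 1) (by
    intro i _ hi
    rw [hχ' i hi, Finset.mem_range]
    exact (χ _).2) (by
    intro a b _ hb hab
    obtain ⟨p, hp⟩ := exists_point k a b hab hb
    have hcov : p ∈ ⋃₀ D := ⟨ldisc k a, hmemD a (by omega), (hp a).mpr ⟨le_rfl, hab⟩⟩
    obtain ⟨⟨d, i, hi, rfl⟩, hd1, hd2⟩ := hχ p hcov
    have hi' := (hp i).mp hd1
    refine ⟨i, hi'.1, hi'.2, fun j hj1 hj2 hji heq => ?_⟩
    have hik : i < k + 1 := hi
    have hjk : j < k + 1 := by omega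
    apply hd2 ⟨ldisc k j, hmemD j hjk⟩ ?_ ((hp j).mpr ⟨hj1, hj2⟩)
    · rw [hχ' i hik, hχ' j hjk] at heq
      exact Fin.ext heq.symm
    · intro h0
      exact hji (ldisc_inj k j i (Subtype.ext_iff.mp h0)))
  rw [Finset.card_range] at key
  simpa using key

/-- **Main result.** For every `k` the number `f k` is the least number of colours that always
suffices, and for `k ≥ 2` it lies between `log k` and `1600 log k`. Thus `f k = Θ(log k)`. -/
theorem result : (∀ k : ℕ, IsLeast {m : ℕ | Suffices k m} (f k)) ∧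
    ∀ k : ℕ, 2 ≤ k → Real.log k ≤ f k ∧ (f k : ℝ) ≤ 1600 * Real.log k := by
  have hlog76 : (1 : ℝ) / 7 ≤ Real.log (7 / 6) := by
    have := Real.one_sub_inv_le_log_of_pos (show (0 : ℝ) < 7 / 6 by norm_num)
    norm_num at this
    linarith
  have hex : ∀ k : ℕ, ∃ m : ℕ, 6 ^ m * (k + 1) ^ 28 < 7 ^ m ∧
      (m : ℝ) ≤ 196 * Real.log (k + 1) + 1 := by
    intro k
    have hk1 : (0 : ℝ) < (k : ℝ) + 1 := by positivity
    have hl : 0 ≤ Real.log ((k : ℝ) + 1) :=
      Real.log_nonneg (by linarith [Nat.cast_nonneg (α := ℝ) k])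
    refine ⟨⌊196 * Real.log ((k : ℝ) + 1)⌋₊ + 1, ?_, ?_⟩
    · set m := ⌊196 * Real.log ((k : ℝ) + 1)⌋₊ + 1 with hm
      have h1 : 196 * Real.log ((k : ℝ) + 1) < m := by
        rw [hm]; push_cast; exact Nat.lt_floor_add_one _
      have h2 : Real.log (((k : ℝ) + 1) ^ 28) < Real.log ((7 / 6) ^ m) := by
        rw [Real.log_pow, Real.log_pow]
        have h3 : (m : ℝ) * (1 / 7) ≤ m * Real.log (7 / 6) :=
          mul_le_mul_of_nonneg_left hlog76 (Nat.cast_nonneg m)
        push_cast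
        linarith
      have h3 : ((k : ℝ) + 1) ^ 28 < (7 / 6) ^ m :=
        (Real.log_lt_log_iff (by positivity) (by positivity)).mp h2
      have h4 : (6 : ℝ) ^ m * ((k : ℝ) + 1) ^ 28 < 7 ^ m := by
        have h5 : (6 : ℝ) ^ m * (7 / 6) ^ m = 7 ^ m := by
          rw [← mul_pow]; norm_num
        rw [← h5]
        exact mul_lt_mul_of_pos_left h3 (by positivity)
      exact_mod_cast h4
    · push_cast
      have := Nat.floor_le (show 0 ≤ 196 * Real.log ((k : ℝ) + 1) by positivity)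
      linarith
  have hne : ∀ k : ℕ, {m : ℕ | Suffices k m}.Nonempty := by
    intro k
    obtain ⟨m, hm, _⟩ := hex k
    exact ⟨4 * m, suffices_of_pow k m hm⟩
  have hmem : ∀ k : ℕ, Suffices k (f k) := fun k => Nat.sInf_mem (hne k)
  refine ⟨fun k => ⟨hmem k, fun m hm => Nat.sInf_le hm⟩, fun k hk => ⟨?_, ?_⟩⟩
  · have h1 := pow_of_suffices k (f k) (hmem k)
    have hk0 : (0 : ℝ) < k := by positivity
    have h2 : (k : ℝ) ≤ 2 ^ (f k) := by
      have : k ≤ 2 ^ (f k) := by omega
      exact_mod_cast this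
    have h3 : Real.log k ≤ f k * Real.log 2 := by
      rw [← Real.log_pow]
      exact Real.log_le_log hk0 h2
    have h4 : Real.log 2 ≤ 1 := by
      have := Real.log_le_sub_one_of_pos (show (0 : ℝ) < 2 by norm_num)
      linarith
    have h5 : (f k : ℝ) * Real.log 2 ≤ f k * 1 :=
      mul_le_mul_of_nonneg_left h4 (Nat.cast_nonneg _)
    linarith
  · obtain ⟨m, hm, hm2⟩ := hex k
    have h1 : f k ≤ 4 * m := Nat.sInf_le (suffices_of_pow k m hm)
    have h2 : (f k : ℝ) ≤ 4 * m := by exact_mod_cast h1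
    have hk2 : (2 : ℝ) ≤ k := by exact_mod_cast hk
    have h3 : Real.log ((k : ℝ) + 1) ≤ 2 * Real.log k := by
      have : (k : ℝ) + 1 ≤ (k : ℝ) ^ 2 := by nlinarith
      have h4 := Real.log_le_log (by positivity) this
      rw [Real.log_pow] at h4
      exact_mod_cast h4
    have h5 : (1 : ℝ) / 2 ≤ Real.log k := by
      have h6 := Real.log_le_log (by norm_num) hk2
      have h7 := Real.one_sub_inv_le_log_of_pos (show (0 : ℝ) < 2 by norm_num)
      norm_num at h7
      linarith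
    linarith

end Pool.Agent.Results.MP_91129c_co.ThetaLog
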